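import Mathlib
import Pool.Agent.W439.TR.Refl

set_option autoImplicit false

/-!
# Every second marginal of a stationary 1-dependent 4-colouring is rigid
-/

namespace Pool.Agent.Results.MP_c12967_pr.ParityRigidity

open MeasureTheory ProbabilityTheory

/-- `μ` is the law of a stationary 1-dependent 4-colouring of the integers. -/
structure IsLaw (μ : Measure (ℤ → Fin 4)) : Prop where
  prob : IsProbabilityMeasure μ
  stationary : Measure.map (fun x : ℤ → Fin 4 => fun n : ℤ => x (n + 1)) μ = μ
  coloring : ∀ᵐ x ∂μ, ∀ n : ℤ, x n ≠ x (n + 1)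
  dependence : ∀ A B : Set ℤ, (∀ a ∈ A, ∀ b ∈ B, 1 < |a - b|) →
    Indep (⨆ a ∈ A, MeasurableSpace.comap (fun x : ℤ → Fin 4 => x a) (⊤ : MeasurableSpace (Fin 4)))
      (⨆ b ∈ B, MeasurableSpace.comap (fun x : ℤ → Fin 4 => x b) (⊤ : MeasurableSpace (Fin 4))) μ

/-- The probability that the colouring with law `μ` shows the word `w` at the sites
`0, 1, …, |w| - 1`. -/
noncomputable def wordProb (μ : Measure (ℤ → Fin 4)) (w : List (Fin 4)) : ℝ :=
  μ.real {x | ∀ i : Fin w.length, x ((i : ℕ) : ℤ) = w.get i}

/-- **Parity rigidity.** If two stationary 1-dependent 4-colourings of the integers have the same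
`n`-letter word probabilities, then `P(w) + (-1) ^ n P(reversed w)` is the same for both, for every
word `w` with `n + 1` letters. In particular, for reflection invariant laws the law of `2 k`
consecutive colours determines the law of `2 k + 1` consecutive colours. -/
theorem result : ∀ μ ν : Measure (ℤ → Fin 4), IsLaw μ → IsLaw ν →
    ∀ n : ℕ, (∀ w : List (Fin 4), w.length = n → wordProb μ w = wordProb ν w) →
      ∀ w : List (Fin 4), w.length = n + 1 →
        wordProb μ w + (-1) ^ n * wordProb μ w.reverse =
          wordProb ν w + (-1) ^ n * wordProb ν w.reverse := by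
  intro μ ν hμ hν n h w hw
  have hμ' : Pool.Agent.H588R3.FC.IsColoringLaw μ :=
    ⟨hμ.prob, hμ.stationary, hμ.coloring, hμ.dependence⟩
  have hν' : Pool.Agent.H588R3.FC.IsColoringLaw ν :=
    ⟨hν.prob, hν.stationary, hν.coloring, hν.dependence⟩
  exact Pool.Agent.W439.TR.main_parity hμ' hν' n h w hw

end Pool.Agent.Results.MP_c12967_pr.ParityRigidity
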