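import Mathlib
import Pool.Agent.W439.TR.Refl

set_option autoImplicit false

/-!
# A stationary 1-dependent 4-colouring is determined by its two-run words
-/

namespace Pool.Agent.Results.MP_c12967_pr.TwoRunWords

open MeasureTheory ProbabilityTheory

/-- `μ` is the law of a stationary 1-dependent 4-colouring of the integers. -/
structure IsLaw (μ : Measure (ℤ → Fin 4)) : Prop where
  prob : IsProbabilityMeasure μ
  stationary : Measure.map (fun x : ℤ → Fin 4 => fun n : ℤ => x (n + 1)) μ = μ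
  coloring : ∀ᵐ x ∂μ, ∀ n : ℤ, x n ≠ x (n + 1)
  dependence : ∀ A B : Set ℤ, (∀ a ∈ A, ∀ b ∈ B, 1 < |a - b|) →
    Indep (⨆ a ∈ A, MeasurableSpace.comap (fun x : ℤ → Fin 4 => x a) (⊤ : MeasurableSpace (Fin 4)))
      (⨆ b ∈ B, MeasurableSpace.comap (fun x : ℤ → Fin 4 => x b) (⊤ : MeasurableSpace (Fin 4))) μ

/-- `μ` is invariant under the reflection of the integers. -/
def Reflected (μ : Measure (ℤ → Fin 4)) : Prop :=
  Measure.map (fun x : ℤ → Fin 4 => fun n : ℤ => x (-n)) μ = μ

/-- The event that the colours 0 and 1 alternate on the sites `-i, …, 0`, the colours 0 and 2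
alternate on the sites `0, …, j`, and site 0 has colour 0. -/
def TwoRun (i j : ℕ) : Set (ℤ → Fin 4) :=
  {x | (∀ k : ℕ, k ≤ i → x (-(k : ℤ)) = if k % 2 = 0 then 0 else 1) ∧
    ∀ k : ℕ, k ≤ j → x (k : ℤ) = if k % 2 = 0 then 0 else 2}

/-- **Two-run words determine the law.** If two stationary 1-dependent 4-colourings of the integers
agree on the events `TwoRun i j` with `j` odd, and on those with `j = 0` and `i` odd, then they have
the same law. If both laws are reflection invariant, the events with `i` and `j` both odd are not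
needed either. -/
theorem result : ∀ μ ν : Measure (ℤ → Fin 4), IsLaw μ → IsLaw ν →
    (∀ i j : ℕ, (Odd j ∨ (j = 0 ∧ Odd i)) → ¬ (Reflected μ ∧ Reflected ν ∧ Odd i ∧ Odd j) →
      μ (TwoRun i j) = ν (TwoRun i j)) →
    μ = ν := by
  intro μ ν hμ hν h
  have hμ' : Pool.Agent.H588R3.FC.IsColoringLaw μ :=
    ⟨hμ.prob, hμ.stationary, hμ.coloring, hμ.dependence⟩
  have hν' : Pool.Agent.H588R3.FC.IsColoringLaw ν :=
    ⟨hν.prob, hν.stationary, hν.coloring, hν.dependence⟩
  by_cases hr : Reflected μ ∧ Reflected ν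
  · refine Pool.Agent.W439.TR.main_refl hμ' hν' hr.1 hr.2 (fun i j hij => ?_)
    rcases hij with ⟨hi, hj⟩ | ⟨hj, hi⟩
    · exact h i j (Or.inl hj) (fun hc => (Nat.not_odd_iff_even.2 hi) hc.2.2.1)
    · refine h i j (Or.inr ⟨hj, hi⟩) (fun hc => ?_)
      have := hc.2.2.2
      rw [hj] at this
      exact absurd this (by decide)
  · exact Pool.Agent.W439.TR.main hμ' hν' (fun i j hij => h i j hij (fun hc => hr ⟨hc.1, hc.2.1⟩))

end Pool.Agent.Results.MP_c12967_pr.TwoRunWords
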